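import Pool.Agent.Z700.Defs

/-!
# The product of two Gross sums as a sum over pairs of vectors
-/

set_option autoImplicit false

namespace Pool.Agent.Z419

open Finset Matrix Pool.Agent.Z700

instance fact7 : Fact (Nat.Prime 7) := ⟨by norm_num⟩

/-! ### lines modulo seven -/

lemma ln_smul {n : Fin 3 → ZMod 7} {β : ZMod 7} {v : V3} (c : ZMod 7) (h : Ln n β v) : Ln (c • n) β v := by
  obtain ⟨h0, h1, h2⟩ := h
  refine ⟨?_, ?_, ?_⟩ <;> simp only [Pi.smul_apply, smul_eq_mul]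
  · linear_combination c * h0
  · linear_combination c * h1
  · linear_combination c * h2

lemma dot_cast (v w : V3) : ((v ⬝ᵥ w : ℤ) : ZMod 7) = (v 0 : ZMod 7) * w 0 + (v 1 : ZMod 7) * w 1 + (v 2 : ZMod 7) * w 2 := by
  simp [dotProduct, Fin.sum_univ_three]

lemma iso_of_ln {n : Fin 3 → ZMod 7} {β : ZMod 7} {v : V3} (hβ : β ≠ 0) (h : Ln n β v) :
    n 0 ^ 2 + n 1 ^ 2 + n 2 ^ 2 = 0 := by
  obtain ⟨h0, h1, h2⟩ := h
  have : β * (n 0 ^ 2 + n 1 ^ 2 + n 2 ^ 2) = 0 := by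
    linear_combination - n 0 * h0 - n 1 * h1 - n 2 * h2
  exact (mul_eq_zero.1 this).resolve_left hβ

lemma cross {n n' : Fin 3 → ZMod 7} {β : ZMod 7} {v : V3} (hβ : β ≠ 0) (hv : ((v ⬝ᵥ v : ℤ) : ZMod 7) ≠ 0)
    (h : Ln n β v) (h' : Ln n' β v) : n 1 * n' 2 - n 2 * n' 1 = 0 ∧ n 2 * n' 0 - n 0 * n' 2 = 0 ∧
      n 0 * n' 1 - n 1 * n' 0 = 0 := by
  obtain ⟨h0, h1, h2⟩ := h
  obtain ⟨k0, k1, k2⟩ := h'
  rw [dot_cast] at hv
  generalize (v 0 : ZMod 7) = a0 at *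
  generalize (v 1 : ZMod 7) = a1 at *
  generalize (v 2 : ZMod 7) = a2 at *
  have e1 : a0 * n 0 + a1 * n 1 + a2 * n 2 = 0 := by
    have : β * (a0 * n 0 + a1 * n 1 + a2 * n 2) = 0 := by
      linear_combination - a0 * h0 - a1 * h1 - a2 * h2
    exact (mul_eq_zero.1 this).resolve_left hβ
  have e2 : a0 * n' 0 + a1 * n' 1 + a2 * n' 2 = 0 := by
    have : β * (a0 * n' 0 + a1 * n' 1 + a2 * n' 2) = 0 := by
      linear_combination - a0 * k0 - a1 * k1 - a2 * k2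
    exact (mul_eq_zero.1 this).resolve_left hβ
  have e3 : a0 * (n 1 * n' 2 - n 2 * n' 1) + a1 * (n 2 * n' 0 - n 0 * n' 2) +
      a2 * (n 0 * n' 1 - n 1 * n' 0) = 0 := by
    have e4 : (2 : ZMod 7) * (a0 * (n 1 * n' 2 - n 2 * n' 1) + a1 * (n 2 * n' 0 - n 0 * n' 2) +
      a2 * (n 0 * n' 1 - n 1 * n' 0)) = 0 := by
      linear_combination n' 0 * h0 + n' 1 * h1 + n' 2 * h2 - n 0 * k0 - n 1 * k1 - n 2 * k2
    exact (mul_eq_zero.1 e4).resolve_left (by decide)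
  refine ⟨?_, ?_, ?_⟩
  · have : (n 1 * n' 2 - n 2 * n' 1) * (a0 * a0 + a1 * a1 + a2 * a2) = 0 := by
      linear_combination a0 * e3 + (a1 * n' 2 - a2 * n' 1) * e1 - (a1 * n 2 - a2 * n 1) * e2
    exact (mul_eq_zero.1 this).resolve_right hv
  · have : (n 2 * n' 0 - n 0 * n' 2) * (a0 * a0 + a1 * a1 + a2 * a2) = 0 := by
      linear_combination a1 * e3 + (a2 * n' 0 - a0 * n' 2) * e1 - (a2 * n 0 - a0 * n 2) * e2
    exact (mul_eq_zero.1 this).resolve_right hv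
  · have : (n 0 * n' 1 - n 1 * n' 0) * (a0 * a0 + a1 * a1 + a2 * a2) = 0 := by
      linear_combination a2 * e3 + (a0 * n' 1 - a1 * n' 0) * e1 - (a0 * n 1 - a1 * n 0) * e2
    exact (mul_eq_zero.1 this).resolve_right hv

lemma parallel {n n' : Fin 3 → ZMod 7} (hn : n ≠ 0) (h0 : n 1 * n' 2 - n 2 * n' 1 = 0)
    (h1 : n 2 * n' 0 - n 0 * n' 2 = 0) (h2 : n 0 * n' 1 - n 1 * n' 0 = 0) : ∃ c : ZMod 7, n' = c • n := by
  have hex : ∃ i, n i ≠ 0 := by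
    by_contra h
    push Not at h
    exact hn (funext h)
  have hij : ∀ i j, n i * n' j = n j * n' i := by
    intro i j
    fin_cases i <;> fin_cases j <;> simp only [Fin.zero_eta, Fin.mk_one, Fin.reduceFinMk]
    · linear_combination h2
    · linear_combination -h1
    · linear_combination -h2
    · linear_combination h0
    · linear_combination h1
    · linear_combination -h0
  obtain ⟨i, hi⟩ := hex
  refine ⟨n' i / n i, ?_⟩
  funext j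
  rw [Pi.smul_apply, smul_eq_mul, div_mul_eq_mul_div, eq_div_iff hi]
  linear_combination hij i j

lemma six (β1 β2 : ZMod 7) (v w : V3) (hβ : β1 ≠ 0) (hv : ((v ⬝ᵥ v : ℤ) : ZMod 7) ≠ 0) (x : ℤ) :
    ∑ n : Fin 3 → ZMod 7, (if n ≠ 0 ∧ Ln n β1 v ∧ Ln n β2 w then x else 0) =
      if (∃ n : Fin 3 → ZMod 7, n ≠ 0 ∧ Ln n β1 v ∧ Ln n β2 w) then 6 * x else 0 := by
  rw [← Finset.sum_filter, Finset.sum_const, nsmul_eq_mul]
  by_cases h : ∃ n : Fin 3 → ZMod 7, n ≠ 0 ∧ Ln n β1 v ∧ Ln n β2 w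
  · rw [if_pos h]
    obtain ⟨n₁, hn₁, hv₁, hw₁⟩ := h
    have hcard : (Finset.univ.filter fun n : Fin 3 → ZMod 7 => n ≠ 0 ∧ Ln n β1 v ∧ Ln n β2 w).card = 6 := by
      have h2 : (Finset.univ.filter fun n : Fin 3 → ZMod 7 => n ≠ 0 ∧ Ln n β1 v ∧ Ln n β2 w) =
          (Finset.univ.filter fun c : ZMod 7 => c ≠ 0).image fun c => c • n₁ := by
        ext n
        simp only [Finset.mem_filter, Finset.mem_univ, true_and, Finset.mem_image]
        constructor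
        · rintro ⟨a, b, c⟩
          obtain ⟨k0, k1, k2⟩ := cross hβ hv hv₁ b
          obtain ⟨d, hd⟩ := parallel hn₁ k0 k1 k2
          refine ⟨d, ?_, hd.symm⟩
          rintro rfl
          rw [zero_smul] at hd
          exact a hd
        · rintro ⟨c, hc, rfl⟩
          exact ⟨smul_ne_zero hc hn₁, ln_smul c hv₁, ln_smul c hw₁⟩
      rw [h2, Finset.card_image_of_injective _ (smul_left_injective _ hn₁)]
      decide
    rw [hcard]
    norm_num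
  · rw [if_neg h]
    have h2 : (Finset.univ.filter fun n : Fin 3 → ZMod 7 => n ≠ 0 ∧ Ln n β1 v ∧ Ln n β2 w) = ∅ := by
      rw [Finset.filter_eq_empty_iff]
      intro n _ hn
      exact h ⟨n, hn⟩
    rw [h2]
    simp

/-! ### orientation at two -/

lemma dec4 : ∀ a0 a1 a2 b0 b1 b2 : ZMod 4, a0 * a0 = 1 → a1 * a1 = 1 → a2 * a2 = 1 → b0 * b0 = 1 →
    b1 * b1 = 1 → b2 * b2 = 1 →
    (a0 * b0 + a1 * b1 + a2 * b2 = 1 ↔ ¬ (a0 * a1 * a2 = 1 ↔ b0 * b1 * b2 = 1)) := by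
  decide +kernel

lemma dec8 : ∀ a0 a1 a2 : ZMod 8, a0 * a0 + a1 * a1 + a2 * a2 = 3 → a0 * a0 = 1 ∧ a1 * a1 = 1 ∧ a2 * a2 = 1 := by
  decide +kernel

lemma cast4 (a : ℤ) : (a : ZMod 4) = 1 ↔ a % 4 = 1 := by
  have h := ZMod.intCast_eq_intCast_iff' a 1 4
  rw [Int.cast_one] at h
  rw [h]
  norm_num

/-- all coordinates are odd -/
lemma odd_coord {N : ℤ} (hN : N % 8 = 3) {v : V3} (hv : v ⬝ᵥ v = N) (i : Fin 3) :
    (v i : ZMod 4) * (v i : ZMod 4) = 1 := by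
  have h1 : ((v ⬝ᵥ v : ℤ) : ZMod 8) = 3 := by
    rw [hv]
    have := (ZMod.intCast_eq_intCast_iff' N 3 8).2 (by push_cast; omega)
    rw [this]
    norm_num
  have h2 : (v 0 : ZMod 8) * v 0 + (v 1 : ZMod 8) * v 1 + (v 2 : ZMod 8) * v 2 = 3 := by
    rw [← h1]
    simp [dotProduct, Fin.sum_univ_three]
  have h3 := dec8 _ _ _ h2
  have h4 : ∀ i : Fin 3, (v i : ZMod 8) * v i = 1 := by
    intro i
    fin_cases i
    · exact h3.1
    · exact h3.2.1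
    · exact h3.2.2
  have h5 := congrArg (ZMod.castHom (show 4 ∣ 8 by norm_num) (ZMod 4)) (h4 i)
  rw [map_mul, map_intCast, map_one] at h5
  exact h5

lemma dot_mod4 {N1 N2 : ℤ} (hN1 : N1 % 8 = 3) (hN2 : N2 % 8 = 3) {v w : V3} (hv : v ⬝ᵥ v = N1) (hw : w ⬝ᵥ w = N2) :
    (v ⬝ᵥ w) % 4 = 1 ↔ ep v ≠ ep w := by
  have h1 := dec4 _ _ _ _ _ _ (odd_coord hN1 hv 0) (odd_coord hN1 hv 1) (odd_coord hN1 hv 2)
    (odd_coord hN2 hw 0) (odd_coord hN2 hw 1) (odd_coord hN2 hw 2)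
  have h2 : (v 0 : ZMod 4) * w 0 + (v 1 : ZMod 4) * w 1 + (v 2 : ZMod 4) * w 2 = ((v ⬝ᵥ w : ℤ) : ZMod 4) := by
    simp [dotProduct, Fin.sum_univ_three]
  have h3 : ∀ u : V3, (u 0 : ZMod 4) * u 1 * u 2 = ((u 0 * u 1 * u 2 : ℤ) : ZMod 4) := by
    intro u
    push_cast
    ring
  rw [h2, h3, h3, cast4, cast4, cast4] at h1
  rw [h1]
  unfold ep
  by_cases a : (v 0 * v 1 * v 2) % 4 = 1 <;> by_cases b : (w 0 * w 1 * w 2) % 4 = 1 <;> simp [a, b]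

lemma ep_cases (v : V3) : ep v = 1 ∨ ep v = -1 := by
  unfold ep
  split_ifs
  · exact Or.inl rfl
  · exact Or.inr rfl

/-! ### the product of the sums for a given line -/

lemma sg_prod (N1 N2 : ℤ) (β1 β2 : ZMod 7) (n : Fin 3 → ZMod 7) :
    ∑ q ∈ vec N1 ×ˢ vec N2, (if ep q.1 ≠ ep q.2 ∧ Ln n β1 q.1 ∧ Ln n β2 q.2 then chv q.1 * chv q.2 else 0) =
      Sg N1 n β1 1 * Sg N2 n β2 (-1) + Sg N1 n β1 (-1) * Sg N2 n β2 1 := by
  unfold Sg
  rw [Finset.sum_filter, Finset.sum_filter, Finset.sum_filter, Finset.sum_filter, Finset.sum_mul_sum,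
    Finset.sum_mul_sum, ← Finset.sum_product', ← Finset.sum_product', ← Finset.sum_add_distrib]
  refine Finset.sum_congr rfl fun q _ => ?_
  by_cases a : Ln n β1 q.1
  · by_cases b : Ln n β2 q.2
    · rcases ep_cases q.1 with h1 | h1 <;> rcases ep_cases q.2 with h2 | h2 <;> rw [h1, h2] <;> simp [a, b]
    · simp [b]
  · simp [a]

lemma sg_zero {N : ℤ} {β : ZMod 7} (hβ : β ≠ 0) {n : Fin 3 → ZMod 7} (hn : n 0 ^ 2 + n 1 ^ 2 + n 2 ^ 2 ≠ 0)
    (ε : ℤ) : Sg N n β ε = 0 := by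
  unfold Sg
  rw [Finset.sum_filter]
  refine Finset.sum_eq_zero fun v _ => ?_
  rw [if_neg]
  rintro ⟨h, _⟩
  exact hn (iso_of_ln hβ h)

/-- the right hand side -/
lemma rhs_eq {N1 N2 B : ℤ} {β1 β2 : ZMod 7} (hN1 : N1 % 8 = 3) (hN2 : N2 % 8 = 3) (h1 : 0 < N1) (h2 : 0 < N2)
    (hB : B = N1 * N2) (hβ : β1 ≠ 0) (hv7 : (N1 : ZMod 7) ≠ 0) :
    6 * ∑ b ∈ (Ioo (-B) B).filter fun b : ℤ => b % 4 = 1, DD N1 N2 β1 β2 b =
      ∑ n : Fin 3 → ZMod 7, if n ≠ 0 ∧ n 0 ^ 2 + n 1 ^ 2 + n 2 ^ 2 = 0 then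
        Sg N1 n β1 1 * Sg N2 n β2 (-1) + Sg N1 n β1 (-1) * Sg N2 n β2 1 else 0 := by
  have e1 : ∑ b ∈ (Ioo (-B) B).filter fun b : ℤ => b % 4 = 1, DD N1 N2 β1 β2 b =
      ∑ q ∈ vec N1 ×ˢ vec N2, if ep q.1 ≠ ep q.2 ∧ (∃ n : Fin 3 → ZMod 7, n ≠ 0 ∧ Ln n β1 q.1 ∧ Ln n β2 q.2) then
        chv q.1 * chv q.2 else 0 := by
    unfold DD
    simp only [Finset.sum_filter (s := vec N1 ×ˢ vec N2)]
    rw [Finset.sum_comm]
    refine Finset.sum_congr rfl fun q hq => ?_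
    rw [Finset.mem_product] at hq
    have hq1 : q.1 ⬝ᵥ q.1 = N1 := (Finset.mem_filter.1 hq.1).2
    have hq2 : q.2 ⬝ᵥ q.2 = N2 := (Finset.mem_filter.1 hq.2).2
    have hmem : q.1 ⬝ᵥ q.2 ∈ Ioo (-B) B := by
      have hcs : (q.1 ⬝ᵥ q.2) ^ 2 ≤ N1 * N2 := by
        rw [← hq1, ← hq2]
        simp only [dotProduct, Fin.sum_univ_three]
        nlinarith [sq_nonneg (q.1 0 * q.2 1 - q.1 1 * q.2 0), sq_nonneg (q.1 0 * q.2 2 - q.1 2 * q.2 0),
          sq_nonneg (q.1 1 * q.2 2 - q.1 2 * q.2 1)]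
      rw [← hB] at hcs
      have hB1 : 1 < B := by
        have a1 : 3 ≤ N1 := by omega
        have a2 : 3 ≤ N2 := by omega
        rw [hB]
        nlinarith
      rw [Finset.mem_Ioo]
      refine abs_lt.1 (abs_lt_of_sq_lt_sq ?_ (by omega))
      nlinarith
    have hfil : (q.1 ⬝ᵥ q.2 ∈ (Ioo (-B) B).filter fun b : ℤ => b % 4 = 1) ↔ ep q.1 ≠ ep q.2 := by
      rw [Finset.mem_filter, dot_mod4 hN1 hN2 hq1 hq2]
      exact ⟨fun h => h.2, fun h => ⟨hmem, h⟩⟩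
    by_cases hc : ∃ n : Fin 3 → ZMod 7, n ≠ 0 ∧ Ln n β1 q.1 ∧ Ln n β2 q.2
    · simp only [hc, and_true]
      rw [Finset.sum_ite_eq]
      exact if_congr hfil rfl rfl
    · simp only [hc, and_false, if_false, Finset.sum_const_zero]
  rw [e1, Finset.mul_sum]
  have e2 : ∀ q ∈ vec N1 ×ˢ vec N2, (6 * if ep q.1 ≠ ep q.2 ∧ (∃ n : Fin 3 → ZMod 7, n ≠ 0 ∧ Ln n β1 q.1 ∧ Ln n β2 q.2)
      then chv q.1 * chv q.2 else 0) = ∑ n : Fin 3 → ZMod 7, if n ≠ 0 then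
        (if ep q.1 ≠ ep q.2 ∧ Ln n β1 q.1 ∧ Ln n β2 q.2 then chv q.1 * chv q.2 else 0) else 0 := by
    intro q hq
    rw [Finset.mem_product] at hq
    have hq1 : q.1 ⬝ᵥ q.1 = N1 := (Finset.mem_filter.1 hq.1).2
    by_cases hep : ep q.1 ≠ ep q.2
    · have h3 := six β1 β2 q.1 q.2 hβ (by rw [hq1]; exact hv7) (chv q.1 * chv q.2)
      have h4 : ∀ n : Fin 3 → ZMod 7, (if n ≠ 0 then
        (if ep q.1 ≠ ep q.2 ∧ Ln n β1 q.1 ∧ Ln n β2 q.2 then chv q.1 * chv q.2 else 0) else 0) =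
        if n ≠ 0 ∧ Ln n β1 q.1 ∧ Ln n β2 q.2 then chv q.1 * chv q.2 else 0 := by
        intro n
        by_cases hn : n ≠ 0
        · simp only [hn, hep, ne_eq, not_false_eq_true, if_true, true_and]
        · simp only [hn, false_and, if_false]
      rw [Finset.sum_congr rfl fun n _ => h4 n, h3]
      by_cases hc : ∃ n : Fin 3 → ZMod 7, n ≠ 0 ∧ Ln n β1 q.1 ∧ Ln n β2 q.2
      · rw [if_pos ⟨hep, hc⟩, if_pos hc]
      · rw [if_neg (fun h => hc h.2), if_neg hc, mul_zero]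
    · simp only [hep, false_and, if_false, mul_zero, ite_self, Finset.sum_const_zero]
  rw [Finset.sum_congr rfl e2, Finset.sum_comm]
  refine Finset.sum_congr rfl fun n _ => ?_
  by_cases hn : n ≠ 0
  · simp only [if_pos hn]
    rw [sg_prod]
    by_cases hi : n 0 ^ 2 + n 1 ^ 2 + n 2 ^ 2 = 0
    · rw [if_pos ⟨hn, hi⟩]
    · rw [if_neg (fun h => hi h.2), sg_zero hβ hi, sg_zero hβ hi]
      ring
  · simp only [hn, false_and, if_false, Finset.sum_const_zero]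

lemma card48 : (Finset.univ.filter fun n : Fin 3 → ZMod 7 => n ≠ 0 ∧ n 0 ^ 2 + n 1 ^ 2 + n 2 ^ 2 = 0).card = 48 := by
  decide +kernel

/-! ### the family -/

lemma pr_mod {D : Finset ℕ} (hD : ∀ p ∈ D, Fam p) : pr D % 24 = 1 := by
  unfold pr
  induction D using Finset.induction_on with
  | empty => rfl
  | insert a s ha ih =>
    rw [Finset.prod_insert ha, Nat.mul_mod, (hD a (Finset.mem_insert_self _ _)).2.1,
      ih fun p hp => hD p (Finset.mem_insert_of_mem hp)]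

lemma pr_ne7 {D : Finset ℕ} (hD : ∀ p ∈ D, Fam p) : (pr D : ZMod 7) ≠ 0 := by
  unfold pr
  push_cast
  refine Finset.prod_ne_zero_iff.2 fun p hp h => ?_
  rw [ZMod.natCast_eq_zero_iff] at h
  have := (hD p hp).2.2
  omega

lemma be_ne {D : Finset ℕ} : be D ≠ 0 := by
  unfold be
  refine mul_ne_zero (by decide) (Finset.prod_ne_zero_iff.2 fun p _ => ?_)
  unfold sq7
  split_ifs <;> decide

lemma pii_empty (h1 : S_SG1) : pii ∅ = 1 := by
  have h2 := h1 n0 (by decide) (by decide)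
  have h3 : sgl n0 = 1 := by decide
  rw [if_pos h3, if_pos h3] at h2
  have hbe : be ∅ = 2 := by simp [be]
  have hpr : (3 * (pr ∅ : ℤ)) = 3 := by simp [pr]
  unfold pii
  rw [hbe, hpr]
  have h4 : ∑ v ∈ (vec 3).filter (fun v => Ln n0 2 v), chv v = Sg 3 n0 2 1 + Sg 3 n0 2 (-1) := by
    unfold Sg
    rw [Finset.sum_filter, Finset.sum_filter, Finset.sum_filter, ← Finset.sum_add_distrib]
    refine Finset.sum_congr rfl fun v _ => ?_
    by_cases a : Ln n0 2 v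
    · rcases ep_cases v with h | h <;> simp [a, h]
    · simp [a]
  rw [h4, h2.1, h2.2]
  norm_num

lemma sgl_cases (n : Fin 3 → ZMod 7) : sgl n = 1 ∨ sgl n = -1 := by
  unfold sgl
  split_ifs
  · exact Or.inl rfl
  · exact Or.inr rfl

/-- the contribution of one line -/
lemma line_val (h : S_SG) (h1 : S_SG1) {D1 D2 : Finset ℕ} (hD1 : ∀ p ∈ D1, Fam p) (hD2 : ∀ p ∈ D2, Fam p)
    (hne : D1.Nonempty ∨ D2.Nonempty) (n : Fin 3 → ZMod 7) (hn : n ≠ 0)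
    (hi : n 0 ^ 2 + n 1 ^ 2 + n 2 ^ 2 = 0) :
    2 * (Sg (3 * (pr D1 : ℤ)) n (be D1) 1 * Sg (3 * (pr D2 : ℤ)) n (be D2) (-1) +
      Sg (3 * (pr D1 : ℤ)) n (be D1) (-1) * Sg (3 * (pr D2 : ℤ)) n (be D2) 1) = pii D1 * pii D2 := by
  have hbe : be ∅ = 2 := by simp [be]
  have hpr : (3 * (pr ∅ : ℤ)) = 3 := by simp [pr]
  have hE := h1 n hn hi
  rcases D1.eq_empty_or_nonempty with e1 | e1
  · rcases D2.eq_empty_or_nonempty with e2 | e2
    · subst e1 e2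
      simp at hne
    · subst e1
      have k1 := h D2 hD2 e2 n hn hi 1 (Or.inl rfl)
      have k2 := h D2 hD2 e2 n hn hi (-1) (Or.inr rfl)
      rw [hbe, hpr, hE.1, hE.2, pii_empty h1]
      rcases sgl_cases n with s | s
      · rw [s] at k1 k2 ⊢
        norm_num
        linarith
      · rw [s] at k1 k2 ⊢
        norm_num
        linarith
  · rcases D2.eq_empty_or_nonempty with e2 | e2
    · subst e2
      have k1 := h D1 hD1 e1 n hn hi 1 (Or.inl rfl)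
      have k2 := h D1 hD1 e1 n hn hi (-1) (Or.inr rfl)
      rw [hbe, hpr, hE.1, hE.2, pii_empty h1]
      rcases sgl_cases n with s | s
      · rw [s] at k1 k2 ⊢
        norm_num
        linarith
      · rw [s] at k1 k2 ⊢
        norm_num
        linarith
    · have k1 := h D1 hD1 e1 n hn hi 1 (Or.inl rfl)
      have k2 := h D1 hD1 e1 n hn hi (-1) (Or.inr rfl)
      have k3 := h D2 hD2 e2 n hn hi 1 (Or.inl rfl)
      have k4 := h D2 hD2 e2 n hn hi (-1) (Or.inr rfl)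
      have hs : sgl n * sgl n = 1 := by
        rcases sgl_cases n with s | s <;> rw [s] <;> norm_num
      have e5 : (2 * Sg (3 * (pr D1 : ℤ)) n (be D1) 1) * (2 * Sg (3 * (pr D2 : ℤ)) n (be D2) (-1)) =
          pii D1 * pii D2 := by
        rw [k1, k4]
        linear_combination (pii D1 * pii D2) * hs
      have e6 : (2 * Sg (3 * (pr D1 : ℤ)) n (be D1) (-1)) * (2 * Sg (3 * (pr D2 : ℤ)) n (be D2) 1) =
          pii D1 * pii D2 := by
        rw [k2, k3]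
        linear_combination (pii D1 * pii D2) * hs
      linarith

theorem t_BIL1 (h : S_SG) (h1 : S_SG1) : S_BIL1 := by
  intro P hP D1 s1 D2 s2 _ hne
  have hD1 : ∀ p ∈ D1, Fam p := fun p hp => hP p (s1 hp)
  have hD2 : ∀ p ∈ D2, Fam p := fun p hp => hP p (s2 hp)
  have m1 := pr_mod hD1
  have m2 := pr_mod hD2
  have c7 : ((3 * (pr D1 : ℤ) : ℤ) : ZMod 7) ≠ 0 := by
    push_cast
    exact mul_ne_zero (by decide) (pr_ne7 hD1)
  have k := rhs_eq (N1 := 3 * (pr D1 : ℤ)) (N2 := 3 * (pr D2 : ℤ)) (B := 9 * (pr D1 : ℤ) * (pr D2 : ℤ))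
    (β1 := be D1) (β2 := be D2) (by omega) (by omega) (by omega) (by omega) (by ring) be_ne c7
  have k2 : 2 * ∑ n : Fin 3 → ZMod 7, (if n ≠ 0 ∧ n 0 ^ 2 + n 1 ^ 2 + n 2 ^ 2 = 0 then
        Sg (3 * (pr D1 : ℤ)) n (be D1) 1 * Sg (3 * (pr D2 : ℤ)) n (be D2) (-1) +
          Sg (3 * (pr D1 : ℤ)) n (be D1) (-1) * Sg (3 * (pr D2 : ℤ)) n (be D2) 1 else 0) =
      48 * (pii D1 * pii D2) := by
    rw [Finset.mul_sum]
    have k3 : ∀ n : Fin 3 → ZMod 7, (2 * if n ≠ 0 ∧ n 0 ^ 2 + n 1 ^ 2 + n 2 ^ 2 = 0 then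
        Sg (3 * (pr D1 : ℤ)) n (be D1) 1 * Sg (3 * (pr D2 : ℤ)) n (be D2) (-1) +
          Sg (3 * (pr D1 : ℤ)) n (be D1) (-1) * Sg (3 * (pr D2 : ℤ)) n (be D2) 1 else 0) =
        if n ≠ 0 ∧ n 0 ^ 2 + n 1 ^ 2 + n 2 ^ 2 = 0 then pii D1 * pii D2 else 0 := by
      intro n
      by_cases hn : n ≠ 0 ∧ n 0 ^ 2 + n 1 ^ 2 + n 2 ^ 2 = 0
      · rw [if_pos hn, if_pos hn, line_val h h1 hD1 hD2 hne n hn.1 hn.2]
      · rw [if_neg hn, if_neg hn, mul_zero]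
    rw [Finset.sum_congr rfl fun n _ => k3 n, ← Finset.sum_filter, Finset.sum_const, card48, nsmul_eq_mul]
    norm_num
  linarith

end Pool.Agent.Z419
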