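import Pool.Agent.Z700.Defs

/-!
# The sum over all factorizations
-/

set_option autoImplicit false

namespace Pool.Agent.Z419.Gen

open Finset Matrix Pool.Agent.Z700

/-! ### parity -/

lemma odd_sum {ι : Type} (s : Finset ι) (f : ι → ℤ) (Q : ι → Prop) [DecidablePred Q]
    (h : ∀ i ∈ s, (Odd (f i) ↔ Q i)) : Odd (∑ i ∈ s, f i) ↔ Odd (s.filter Q).card := by
  classical
  induction s using Finset.induction_on with
  | empty => simp
  | insert a s ha ih =>
    have h1 := h a (Finset.mem_insert_self _ _)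
    have h2 := ih fun i hi => h i (Finset.mem_insert_of_mem hi)
    rw [Finset.sum_insert ha, Int.odd_add, Finset.filter_insert]
    by_cases hQ : Q a
    · rw [if_pos hQ, Finset.card_insert_of_notMem (fun h' => ha (Finset.mem_filter.1 h').1), Nat.odd_add_one,
        ← h2, Int.not_odd_iff_even]
      simp [h1, hQ]
    · rw [if_neg hQ, ← h2]
      have h3 : ¬ Odd (f a) := fun h' => hQ (h1.1 h')
      rw [← Int.not_odd_iff_even]
      simp [h3]

/-! ### the family -/

lemma pr_mod {D : Finset ℕ} (hD : ∀ p ∈ D, Fam p) : pr D % 24 = 1 := by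
  unfold pr
  induction D using Finset.induction_on with
  | empty => rfl
  | insert a s ha ih =>
    rw [Finset.prod_insert ha, Nat.mul_mod, (hD a (Finset.mem_insert_self _ _)).2.1,
      ih fun p hp => hD p (Finset.mem_insert_of_mem hp)]

lemma j2 {p : ℕ} (hp : Fam p) : jacobiSym 2 p = 1 := by
  have h1 : Odd p := by
    rw [Nat.odd_iff]
    have := hp.2.1
    omega
  rw [jacobiSym.at_two h1, ZMod.χ₈_nat_eq_if_mod_eight]
  have h2 : p % 8 = 1 := by
    have := hp.2.1
    omega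
  rw [if_neg (by omega), if_pos (Or.inl h2)]

lemma j7 {p : ℕ} (hp : Fam p) : jacobiSym 7 p = 1 := by
  have h1 : p % 4 = 1 := by
    have := hp.2.1
    omega
  have h2 := jacobiSym.quadratic_reciprocity_one_mod_four h1 (show Odd 7 by decide)
  have h3 : ((7 : ℕ) : ℤ) = 7 := rfl
  rw [h3] at h2
  rw [← h2, jacobiSym.mod_left]
  rcases hp.2.2 with h | h | h
  · have : ((p : ℤ) % ((7 : ℕ) : ℤ)) = 1 := by push_cast; omega
    rw [this]
    norm_num
  · have : ((p : ℤ) % ((7 : ℕ) : ℤ)) = 2 := by push_cast; omega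
    rw [this]
    norm_num
  · have : ((p : ℤ) % ((7 : ℕ) : ℤ)) = 4 := by push_cast; omega
    rw [this]
    norm_num

lemma jac_eq {p : ℕ} (hp : Fam p) (i j y : ℕ) :
    jacobiSym ((2 ^ i * 7 ^ j * y : ℕ) : ℤ) p = jacobiSym y p := by
  push_cast
  rw [jacobiSym.mul_left, jacobiSym.mul_left, jacobiSym.pow_left, jacobiSym.pow_left, j2 hp, j7 hp]
  simp

/-! ### the part prime to fourteen -/

lemma fac2 {a c z : ℕ} (h2 : ¬ 2 ∣ z) : (2 ^ a * 7 ^ c * z).factorization 2 = a := by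
  have hz : z ≠ 0 := by rintro rfl; simp at h2
  rw [Nat.factorization_mul (by positivity) hz, Nat.factorization_mul (by positivity) (by positivity),
    Nat.factorization_pow, Nat.factorization_pow]
  simp only [Finsupp.add_apply, Finsupp.smul_apply, smul_eq_mul]
  rw [Nat.Prime.factorization_self Nat.prime_two, Nat.factorization_eq_zero_of_not_dvd h2,
    Nat.factorization_eq_zero_of_not_dvd (n := 7) (by norm_num)]
  simp

lemma fac7 {a c z : ℕ} (h7 : ¬ 7 ∣ z) : (2 ^ a * 7 ^ c * z).factorization 7 = c := by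
  have hz : z ≠ 0 := by rintro rfl; simp at h7
  rw [Nat.factorization_mul (by positivity) hz, Nat.factorization_mul (by positivity) (by positivity),
    Nat.factorization_pow, Nat.factorization_pow]
  simp only [Finsupp.add_apply, Finsupp.smul_apply, smul_eq_mul]
  rw [Nat.Prime.factorization_self (by norm_num), Nat.factorization_eq_zero_of_not_dvd h7,
    Nat.factorization_eq_zero_of_not_dvd (n := 2) (by norm_num)]
  simp

lemma od_eq {a c z : ℕ} (h2 : ¬ 2 ∣ z) (h7 : ¬ 7 ∣ z) : od (2 ^ a * 7 ^ c * z) = z := by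
  unfold od
  rw [fac2 h2, fac7 h7]
  exact Nat.mul_div_cancel_left _ (by positivity)

lemma split14 {n : ℕ} (hn : n ≠ 0) : ∃ i j z : ℕ, ¬ 2 ∣ z ∧ ¬ 7 ∣ z ∧ n = 2 ^ i * 7 ^ j * z := by
  obtain ⟨i, u, hu, hn1⟩ := Nat.exists_eq_pow_mul_and_not_dvd hn 2 (by norm_num)
  have hu0 : u ≠ 0 := by rintro rfl; simp at hu
  obtain ⟨j, z, hz, hu1⟩ := Nat.exists_eq_pow_mul_and_not_dvd hu0 7 (by norm_num)
  refine ⟨i, j, z, fun h => hu ?_, hz, ?_⟩
  · rw [hu1]
    exact Dvd.dvd.mul_left h _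
  · rw [hn1, hu1, mul_assoc]

lemma not_dvd_sq {p z : ℕ} (hp : p.Prime) (h : ¬ p ∣ z) : ¬ p ∣ z ^ 2 := fun h' => h (hp.dvd_of_dvd_pow h')

/-- squares up to fourteen -/
lemma sq14 {P : Finset ℕ} (hP : ∀ p ∈ P, Fam p) {D : ℕ} (hD : 0 < D) :
    (∃ y : ℕ, D = 14 * y ^ 2 ∧ ∀ p ∈ P, jacobiSym y p = 1) ↔
      (Odd (D.factorization 2) ∧ Odd (D.factorization 7) ∧
        ∃ y : ℕ, od D = y ^ 2 ∧ ∀ p ∈ P, jacobiSym y p = 1) := by
  constructor
  · rintro ⟨y, hy, hj⟩
    have hy0 : y ≠ 0 := by rintro rfl; simp at hy; omega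
    obtain ⟨i, j, z, h2, h7, rfl⟩ := split14 hy0
    have e : D = 2 ^ (2 * i + 1) * 7 ^ (2 * j + 1) * z ^ 2 := by rw [hy]; ring
    rw [e, fac2 (not_dvd_sq Nat.prime_two h2), fac7 (not_dvd_sq (by norm_num) h7),
      od_eq (not_dvd_sq Nat.prime_two h2) (not_dvd_sq (by norm_num) h7)]
    refine ⟨⟨i, rfl⟩, ⟨j, rfl⟩, z, rfl, fun p hp => ?_⟩
    rw [← jac_eq (hP p hp) i j z]
    exact hj p hp
  · rintro ⟨⟨i, hi⟩, ⟨j, hj⟩, y, hy, hjac⟩
    obtain ⟨a, c, z, h2, h7, hDe⟩ := split14 hD.ne'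
    rw [hDe, fac2 h2] at hi
    rw [hDe, fac7 h7] at hj
    rw [hDe, od_eq h2 h7] at hy
    refine ⟨2 ^ i * 7 ^ j * y, ?_, fun p hp => ?_⟩
    · rw [hDe, hi, hj, hy]
      ring
    · rw [jac_eq (hP p hp)]
      exact hjac p hp

lemma chi3_odd {n : ℤ} (h : ¬ (3 : ℤ) ∣ n) : Odd (chi3 n) := by
  unfold chi3
  split_ifs
  · decide
  · decide
  · exfalso; omega

lemma wt_odd {b : ℤ} (h : ¬ (9 : ℤ) ∣ b) : Odd (wt b) := by
  unfold wt
  split_ifs with h3
  · refine chi3_odd ?_
    rintro ⟨k, hk⟩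
    apply h
    exact ⟨k, by omega⟩
  · exact (chi3_odd (by omega)).neg

lemma wt_zero {b : ℤ} (h : (9 : ℤ) ∣ b) : wt b = 0 := by
  obtain ⟨k, rfl⟩ := h
  unfold wt
  rw [if_pos (by omega)]
  unfold chi3
  rw [if_neg (by omega), if_neg (by omega)]

lemma mem_FixS {P : Finset ℕ} {b : ℤ} : b ∈ FixS P ↔ b ∈ Ioo (-(9 * (pr P : ℤ))) (9 * (pr P : ℤ)) ∧
    (b % 4 = 1 ∧ (b : ZMod 7) = -(2 * be P) ∧ ¬ (3 : ℤ) ∣ b ∧
    ∃ y ∈ range (9 * pr P), 9 * (pr P : ℤ) = b ^ 2 + 14 * (y : ℤ) ^ 2 ∧ ∀ p ∈ P, jacobiSym y p = 1) := by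
  unfold FixS
  simp only [Finset.mem_filter]

theorem t_GEN (h : S_GENb) : S_GEN := by
  intro P hP hne
  classical
  set m : ℕ := pr P with hm
  have hm24 : m % 24 = 1 := pr_mod hP
  let Db : ℤ → ℕ := fun b => (9 * (m : ℤ) - b ^ 2).toNat
  let I : Finset ℤ := (Ioo (-(9 * (m : ℤ))) (9 * (m : ℤ))).filter fun b : ℤ =>
    b % 4 = 1 ∧ (b : ZMod 7) = -(2 * be P) ∧ 0 < Db b
  have hRR : ∀ D1 ∈ P.powerset, RR D1 (P \ D1) = ∑ b ∈ I, wt b * loc (3 * pr D1) (Db b) := by
    intro D1 hD1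
    rw [Finset.mem_powerset] at hD1
    have e1 : pr D1 * pr (P \ D1) = m := by
      rw [hm]
      unfold pr
      rw [mul_comm]
      exact Finset.prod_sdiff hD1
    have e2 : be D1 * be (P \ D1) = 2 * be P := by
      unfold be
      have := Finset.prod_sdiff hD1 (f := sq7)
      rw [← this]
      ring
    have e3 : (9 * (pr D1 : ℤ) * (pr (P \ D1) : ℤ)) = 9 * (m : ℤ) := by
      rw [← e1]
      push_cast
      ring
    unfold RR dis
    rw [e2, e3]
  rw [Finset.sum_congr rfl hRR, Finset.sum_comm]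
  have key : ∀ b ∈ I, ∃ n : ℤ, ∑ D1 ∈ P.powerset, wt b * loc (3 * pr D1) (Db b) = 2 ^ P.card * n ∧
      (Odd n ↔ b ∈ FixS P) := by
    intro b hb
    obtain ⟨hb0, hb4, hb7, hbD⟩ := Finset.mem_filter.1 hb
    have hDz : ((Db b : ℕ) : ℤ) = 9 * (pr P : ℤ) - b ^ 2 := by
      have h1 : 0 < (9 * (m : ℤ) - b ^ 2) := by
        have : 0 < (9 * (m : ℤ) - b ^ 2).toNat := hbD
        omega
      show (((9 * (m : ℤ) - b ^ 2).toNat : ℕ) : ℤ) = _
      rw [Int.toNat_of_nonneg h1.le]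
    have hfix : b ∈ FixS P ↔ (¬ (3 : ℤ) ∣ b ∧ ∃ y : ℕ, Db b = 14 * y ^ 2 ∧ ∀ p ∈ P, jacobiSym y p = 1) := by
      rw [mem_FixS]
      constructor
      · rintro ⟨_, _, _, h3, y, _, hy, hj⟩
        refine ⟨h3, y, ?_, hj⟩
        have : ((Db b : ℕ) : ℤ) = ((14 * y ^ 2 : ℕ) : ℤ) := by
          rw [hDz, hy]
          push_cast
          ring
        exact_mod_cast this
      · rintro ⟨h3, y, hy, hj⟩
        refine ⟨hb0, hb4, hb7, h3, y, ?_, ?_, hj⟩
        · rw [Finset.mem_range]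
          have h1 : ((14 * y ^ 2 : ℕ) : ℤ) = 9 * (pr P : ℤ) - b ^ 2 := by rw [← hy, hDz]
          have h2 : 14 * y ^ 2 ≤ 9 * pr P := by
            have : ((14 * y ^ 2 : ℕ) : ℤ) ≤ ((9 * pr P : ℕ) : ℤ) := by
              rw [h1]
              push_cast
              nlinarith
            exact_mod_cast this
          have h4 : 0 < pr P := by omega
          nlinarith
        · have h1 : ((14 * y ^ 2 : ℕ) : ℤ) = 9 * (pr P : ℤ) - b ^ 2 := by rw [← hy, hDz]
          push_cast at h1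
          linarith
    rw [hfix, sq14 hP hbD]
    by_cases h2 : Odd ((Db b).factorization 2)
    · by_cases h9 : (9 : ℤ) ∣ b
      · refine ⟨0, ?_, ?_⟩
        · rw [wt_zero h9]
          simp
        · constructor
          · intro h0
            simp at h0
          · rintro ⟨h3, _⟩
            exfalso
            omega
      · obtain ⟨n, hn, hodd⟩ := h P hP hne b (by rw [Int.odd_iff]; omega) h9 (Db b) hbD hDz h2
        refine ⟨wt b * ((Db b).factorization 7 : ℤ) * n, ?_, ?_⟩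
        · have e1 : ∀ D1 ∈ P.powerset, wt b * loc (3 * pr D1) (Db b) =
              wt b * ((Db b).factorization 7 : ℤ) *
                ∏ l ∈ ((Db b).primeFactors.erase 2).erase 7, fac (3 * pr D1) (Db b) l := by
            intro D1 _
            unfold loc
            rw [if_pos h2]
            ring
          rw [Finset.sum_congr rfl e1, ← Finset.mul_sum, hn]
          ring
        · rw [Int.odd_mul, Int.odd_mul, hodd]
          have e2 : Odd (((Db b).factorization 7 : ℕ) : ℤ) ↔ Odd ((Db b).factorization 7) := Int.odd_coe_nat _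
          rw [e2]
          have e3 := wt_odd h9
          tauto
    · refine ⟨0, ?_, ?_⟩
      · have e1 : ∀ D1 ∈ P.powerset, wt b * loc (3 * pr D1) (Db b) = 0 := by
          intro D1 _
          unfold loc
          rw [if_neg h2, mul_zero]
        rw [Finset.sum_congr rfl e1]
        simp
      · constructor
        · intro h0
          simp at h0
        · rintro ⟨_, h3, _⟩
          exact absurd h3 h2
  choose! nb hnb1 hnb2 using key
  refine ⟨∑ b ∈ I, nb b, ?_, ?_⟩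
  · rw [Finset.sum_congr rfl hnb1, Finset.mul_sum]
  · rw [odd_sum I nb (fun b => b ∈ FixS P) hnb2]
    have e1 : I.filter (fun b => b ∈ FixS P) = FixS P := by
      ext b
      rw [Finset.mem_filter]
      constructor
      · exact fun h => h.2
      · intro hb
        refine ⟨?_, hb⟩
        obtain ⟨hb0, hb4, hb7, h3, y, _, hy, _⟩ := mem_FixS.1 hb
        refine Finset.mem_filter.2 ⟨hb0, hb4, hb7, ?_⟩
        show 0 < (9 * (m : ℤ) - b ^ 2).toNat
        rw [hm, hy]
        have hy0 : (y : ℤ) ≠ 0 := by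
          intro h0
          rw [h0] at hy
          -- `b² = 9 m` would make `b` divisible by three
          apply h3
          have h4 : (3 : ℤ) ∣ b ^ 2 := ⟨3 * (pr P : ℤ), by linarith⟩
          exact Int.prime_three.dvd_of_dvd_pow h4
        have : 0 < 14 * (y : ℤ) ^ 2 := by positivity
        omega
    rw [e1]

end Pool.Agent.Z419.Gen
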